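import Pool.Agent.H7.LP.Targets

set_option autoImplicit false

open Set Filter Topology

namespace Pool.Agent.H30.LP

open Pool.Agent.H93.CP Pool.Agent.H7.LP

/-- Codes and structures exist. -/
theorem pf_COD (h1 : T_CNC) : T_COD := by
  intro G X _ _ _ _ _ L M _ Y S x
  classical
  refine ⟨?_, ?_⟩
  · have h2 : ∀ q : ℕ, ∃ n : ℕ → G, (∃ g, S.Node x q g) →
        (∀ j, S.Node x q (n j)) ∧ ∀ g, S.Node x q g → ∃ j, g * (n j)⁻¹ ∈ S.K q := by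
      intro q
      by_cases hq : ∃ g, S.Node x q g
      · obtain ⟨g₀, hg₀⟩ := hq
        obtain ⟨n, hn1, hn2⟩ := h1 G X L M Y S x q g₀ hg₀
        exact ⟨n, fun _ => ⟨hn1, hn2⟩⟩
      · exact ⟨fun _ => 1, fun h => absurd h hq⟩
    choose n hn using h2
    refine ⟨fun i => n i.1 (Nat.unpair i.2).1, ?_, ?_⟩
    · intro q g hg j
      exact (hn q ⟨g, hg⟩).1 _
    · intro q g hg N
      obtain ⟨j₀, hj₀⟩ := (hn q ⟨g, hg⟩).2 g hg
      refine ⟨Nat.pair j₀ N, Nat.right_le_pair j₀ N, ?_⟩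
      dsimp only
      rw [Nat.unpair_pair]
      exact hj₀
  · intro e
    refine ⟨fun p => decide ((∃ g, S.Node x p.1.1 g) ∧ (∃ g, S.Node x p.2.1.1 g) ∧
      S.Adm p.1.1 p.2.1.1 (e p.1 * (e p.2.1)⁻¹) ∧
      (S.gm p.2.2)⁻¹ * (e p.1 * (e p.2.1)⁻¹) ∈ S.K p.2.1.1), ?_⟩
    intro i j m
    exact decide_eq_true_iff

end Pool.Agent.H30.LP
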